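import Pool.Agent.Run7.h325.TW.Stm

/-!
# MP_0ef687_an, piece AR (arithmetic)
-/

set_option autoImplicit false

namespace Pool.Agent.Run7.h325.TW

open Filter Topology Finset

theorem AR_core (M k K P Q : ℕ) (hP : P.Prime) (hQ0 : 0 < Q) (hQP : Q < P) (hk : 2 * k + 1 < P)
    (D : ℤ) (hD : D = 2 * M * P - (2 * k + 1) * Q) (hDpos : 0 < D)
    (hnd : ¬ (2 * K + 1 : ℤ) ∣ D) (j : ℕ) (hj : 1 ≤ j) (z : ℤ)
    (h : D * z = (2 * K + 1) * P * j) : 3 * D ≤ (2 * K + 1) * j := by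
  have hp : Prime (P : ℤ) := Nat.prime_iff_prime_int.mp hP
  have hnP : ¬ (P : ℤ) ∣ D := by
    intro hPD
    have h1 : (P : ℤ) ∣ (2 * k + 1) * Q := by
      have h2 : ((2 * k + 1) * Q : ℤ) = 2 * M * P - D := by rw [hD]; ring
      rw [h2]
      exact dvd_sub (dvd_mul_left _ _) hPD
    have h3 : (P : ℤ) ∣ ((2 * k + 1 : ℕ) : ℤ) ∨ (P : ℤ) ∣ (Q : ℤ) := by
      rcases hp.dvd_or_dvd h1 with h4 | h4
      · left
        push_cast
        exact h4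
      · exact Or.inr h4
    rcases h3 with h4 | h4
    · rw [Int.natCast_dvd_natCast] at h4
      have := Nat.le_of_dvd (by omega) h4
      omega
    · rw [Int.natCast_dvd_natCast] at h4
      have := Nat.le_of_dvd hQ0 h4
      omega
  have hcop : IsCoprime D (P : ℤ) := ((Prime.coprime_iff_not_dvd hp).2 hnP).symm
  have hdvd : D ∣ (2 * K + 1) * j := by
    have h1 : D ∣ (P : ℤ) * ((2 * K + 1) * j) := ⟨z, by rw [h]; ring⟩
    exact hcop.dvd_of_dvd_mul_left h1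
  obtain ⟨t, ht⟩ := hdvd
  have hj0 : (0 : ℤ) < j := by exact_mod_cast hj
  have hpos : (0 : ℤ) < (2 * K + 1) * j := by positivity
  have ht0 : 0 < t := by
    rw [ht] at hpos
    exact (pos_iff_pos_of_mul_pos hpos).1 hDpos
  have ht1 : t ≠ 1 := by
    rintro rfl
    exact hnd ⟨j, by linarith⟩
  have ht2 : t ≠ 2 := by
    rintro rfl
    have hc : IsCoprime (2 * K + 1 : ℤ) 2 := ⟨1, -K, by ring⟩
    exact hnd (hc.dvd_of_dvd_mul_right ⟨j, ht.symm⟩)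
  have ht3 : 3 ≤ t := by omega
  rw [ht]
  nlinarith

theorem t_AR : S_AR := by
  intro a b v u M k K ha1 ha2 hb1 hb2 hv hu huv hav hbu hkK ε hε N0
  have ha0 : a ≠ 0 := by linarith
  have hu0 : u ≠ 0 := hu.ne'
  have ev : (k + 1 / 2 : ℝ) / a = v := by
    rw [div_eq_iff ha0]
    linarith
  have eu : (M : ℝ) - (k + 1 / 2) / a = u := by
    rw [ev]
    linarith
  have eb : (K + 1 / 2 : ℝ) / ((M : ℝ) - (k + 1 / 2) / a) = b := by
    rw [eu, div_eq_iff hu0]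
    linarith
  have c1 : ContinuousAt (fun x : ℝ => (k + 1 / 2 : ℝ) / x) a :=
    continuousAt_const.div continuousAt_id ha0
  have c2 : ContinuousAt (fun x : ℝ => (M : ℝ) - (k + 1 / 2 : ℝ) / x) a :=
    continuousAt_const.sub c1
  have c3 : ContinuousAt (fun x : ℝ => (K + 1 / 2 : ℝ) / ((M : ℝ) - (k + 1 / 2 : ℝ) / x)) a :=
    continuousAt_const.div c2 (by rw [eu]; exact hu0)
  have d1 : Tendsto (fun x : ℝ => (k + 1 / 2 : ℝ) / x) (𝓝 a) (𝓝 v) := by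
    have := c1.tendsto
    rwa [ev] at this
  have d2 : Tendsto (fun x : ℝ => (M : ℝ) - (k + 1 / 2 : ℝ) / x) (𝓝 a) (𝓝 u) := by
    have := c2.tendsto
    rwa [eu] at this
  have d3 : Tendsto (fun x : ℝ => (K + 1 / 2 : ℝ) / ((M : ℝ) - (k + 1 / 2 : ℝ) / x)) (𝓝 a)
      (𝓝 b) := by
    have := c3.tendsto
    rwa [eb] at this
  have e0 : ∀ᶠ x in 𝓝 a, |x - a| < ε := by
    have := Metric.ball_mem_nhds a hε
    filter_upwards [this] with x hx
    rwa [Metric.mem_ball, Real.dist_eq] at hx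
  have e1 : ∀ᶠ x in 𝓝 a, |(k + 1 / 2 : ℝ) / x - v| < ε := by
    filter_upwards [d1 (Metric.ball_mem_nhds v hε)] with x hx
    rwa [Set.mem_preimage, Metric.mem_ball, Real.dist_eq] at hx
  have e2 : ∀ᶠ x in 𝓝 a, |(K + 1 / 2 : ℝ) / ((M : ℝ) - (k + 1 / 2 : ℝ) / x) - b| < ε := by
    filter_upwards [d3 (Metric.ball_mem_nhds b hε)] with x hx
    rwa [Set.mem_preimage, Metric.mem_ball, Real.dist_eq] at hx
  have e3 : ∀ᶠ x in 𝓝 a, 0 < (M : ℝ) - (k + 1 / 2 : ℝ) / x := d2.eventually_const_lt hu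
  have e4 : ∀ᶠ x in 𝓝 a, 1 < x := eventually_gt_nhds ha1
  have e5 : ∀ᶠ x in 𝓝 a, (K + 1 / 2 : ℝ) / ((M : ℝ) - (k + 1 / 2 : ℝ) / x) < 2 :=
    d3.eventually_lt_const hb2
  obtain ⟨δ, hδ, hδ'⟩ := Metric.eventually_nhds_iff.1
    (e0.and (e1.and (e2.and (e3.and (e4.and e5)))))
  obtain ⟨P, hPB, hP⟩ := Nat.exists_infinite_primes
    (2 * (N0 + 2 * M + 2 * k + 2 + ⌈2 / δ⌉₊ + 5))
  obtain ⟨Q0, hQ0⟩ : ∃ Q0, Q0 = ⌊(P : ℝ) / a⌋₊ := ⟨_, rfl⟩
  have haP : 0 < a := by linarith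
  have hQ0l : a * (Q0 : ℝ) ≤ P := by
    have h1 : (Q0 : ℝ) ≤ (P : ℝ) / a := by rw [hQ0]; exact Nat.floor_le (by positivity)
    rw [le_div_iff₀ haP] at h1
    linarith
  have hQ0u : (P : ℝ) < a * (Q0 + 1) := by
    have h1 : (P : ℝ) / a < Q0 + 1 := by rw [hQ0]; exact Nat.lt_floor_add_one _
    rw [div_lt_iff₀ haP] at h1
    linarith
  -- the facts which hold for both candidates
  have key : ∀ Q : ℕ, Q0 ≤ Q → Q ≤ Q0 + 1 →
      N0 + 2 * M + 2 * k + 2 + ⌈2 / δ⌉₊ + 5 ≤ Q ∧ |(P : ℝ) / Q - a| < δ := by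
    intro Q h1 h2
    have r1 : (Q0 : ℝ) ≤ Q := by exact_mod_cast h1
    have r2 : (Q : ℝ) ≤ Q0 + 1 := by exact_mod_cast h2
    have r3 : (P : ℝ) < 2 * (Q + 1) := by
      have : a * ((Q0 : ℝ) + 1) ≤ a * (Q + 1) := by gcongr
      have h0 : (0 : ℝ) < Q + 1 := by positivity
      nlinarith
    have r4 : P < 2 * (Q + 1) := by exact_mod_cast r3
    have r5 : N0 + 2 * M + 2 * k + 2 + ⌈2 / δ⌉₊ + 5 ≤ Q := by omega
    refine ⟨r5, ?_⟩
    have r6 : ⌈2 / δ⌉₊ ≤ Q := by omega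
    have r7 : 2 / δ ≤ (Q : ℝ) := (Nat.le_ceil _).trans (by exact_mod_cast r6)
    have hQpos : (0 : ℝ) < Q := by
      have : 0 < Q := by omega
      exact_mod_cast this
    have r8 : |(P : ℝ) - a * Q| < 2 := by
      rw [abs_lt]
      constructor
      · have : a * (Q : ℝ) ≤ a * (Q0 + 1) := by gcongr
        nlinarith
      · have : a * ((Q0 : ℝ) + 1) ≤ a * (Q + 1) := by gcongr
        nlinarith
    have r9 : (P : ℝ) / Q - a = ((P : ℝ) - a * Q) / Q := by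
      field_simp
    rw [r9, abs_div, abs_of_pos hQpos, div_lt_iff₀ hQpos]
    rw [div_le_iff₀ hδ] at r7
    linarith
  -- the choice of `Q`
  obtain ⟨Q, hQ1, hQ2, hnd⟩ : ∃ Q : ℕ, Q0 ≤ Q ∧ Q ≤ Q0 + 1 ∧
      ¬ (2 * K + 1 : ℤ) ∣ 2 * M * P - (2 * k + 1) * Q := by
    by_cases h0 : (2 * K + 1 : ℤ) ∣ 2 * M * P - (2 * k + 1) * Q0
    · refine ⟨Q0 + 1, by omega, le_rfl, ?_⟩
      intro h1
      have h2 := dvd_sub h0 h1
      have h3 : (2 * M * P - (2 * k + 1) * Q0 : ℤ) - (2 * M * P - (2 * k + 1) * ((Q0 + 1 : ℕ) : ℤ))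
          = 2 * k + 1 := by
        push_cast
        ring
      rw [h3] at h2
      have := Int.le_of_dvd (by positivity) h2
      omega
    · exact ⟨Q0, le_rfl, by omega, h0⟩
  obtain ⟨hB, hPQ⟩ := key Q hQ1 hQ2
  obtain ⟨f0, f1, f2, f3, f4, f5⟩ := hδ' (y := (P : ℝ) / Q) (by rwa [Real.dist_eq])
  have hQpos : 0 < Q := by omega
  have hQr : (0 : ℝ) < Q := by exact_mod_cast hQpos
  have hPr : (0 : ℝ) < P := by exact_mod_cast hP.pos
  have hPQr : (Q : ℝ) < P := by rwa [one_lt_div hQr] at f4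
  have hQP : Q < P := by exact_mod_cast hPQr
  obtain ⟨D, hD⟩ : ∃ D : ℤ, D = 2 * M * P - (2 * k + 1) * Q := ⟨_, rfl⟩
  have hDu : (M : ℝ) - (k + 1 / 2) / ((P : ℝ) / Q) = (D : ℝ) / (2 * P) := by
    rw [hD]
    push_cast
    field_simp
  have hDr : (0 : ℝ) < D := by
    rw [hDu] at f3
    have h2P : (0 : ℝ) < 2 * P := by positivity
    have h3 := mul_pos f3 h2P
    rwa [div_mul_cancel₀ _ h2P.ne'] at h3
  have hDpos : 0 < D := by exact_mod_cast hDr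
  have hbD : (K + 1 / 2 : ℝ) / ((D : ℝ) / (2 * P)) = (2 * K + 1) * P / D := by
    field_simp
  have hxne : (P : ℝ) / Q ≠ 0 := by positivity
  refine ⟨(P : ℝ) / Q, (K + 1 / 2 : ℝ) / ((M : ℝ) - (k + 1 / 2) / ((P : ℝ) / Q)),
    (k + 1 / 2) / ((P : ℝ) / Q), (M : ℝ) - (k + 1 / 2) / ((P : ℝ) / Q), Q, by omega, by omega,
    f0, f2, f1, by ring, mul_div_cancel₀ _ hxne, div_mul_cancel₀ _ f3.ne',
    ⟨P, div_mul_cancel₀ _ hQr.ne'⟩, ?_⟩
  intro j hj1 hj2 z hz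
  rw [hDu, hbD] at hz f5
  have hz' : (D : ℝ) * z = (2 * K + 1) * P * j := by
    rw [← hz]
    field_simp
  have hzi : D * z = (2 * K + 1) * P * j := by exact_mod_cast hz'
  have h3 := AR_core M k K P Q hP hQpos hQP (by omega) D hD hDpos (by rw [hD]; exact hnd) j hj1 z hzi
  have h3r : 3 * (D : ℝ) ≤ (2 * K + 1) * j := by exact_mod_cast h3
  have hjr : (j : ℝ) ≤ M + Q := by exact_mod_cast hj2
  have hMQ : 2 * (M : ℝ) ≤ Q := by
    have : 2 * M ≤ Q := by omega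
    exact_mod_cast this
  have h4 : (2 * K + 1 : ℝ) * P < 2 * D := by rwa [div_lt_iff₀ hDr] at f5
  have h5 : 3 * (D : ℝ) * P ≤ (2 * K + 1) * P * (M + Q) := by
    calc 3 * (D : ℝ) * P ≤ (2 * K + 1) * j * P := by gcongr
      _ ≤ (2 * K + 1) * (M + Q) * P := by gcongr
      _ = _ := by ring
  have hMQ0 : (0 : ℝ) < M + Q := by positivity
  have h6 : (2 * K + 1 : ℝ) * P * (M + Q) < 2 * D * (M + Q) := by gcongr
  have h7 : 3 * (D : ℝ) * P < 2 * D * (M + Q) := lt_of_le_of_lt h5 h6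
  have h8 : 3 * (P : ℝ) < 2 * (M + Q) := by
    have h9 : (D : ℝ) * (3 * P) < D * (2 * (M + Q)) := by linarith
    exact lt_of_mul_lt_mul_left h9 hDr.le
  linarith

end Pool.Agent.Run7.h325.TW
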