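import Pool.Agent.Run7.h325.TW.Stm

/-!
Piece FIN of helper325's project TW (MP_0ef687_an).  Author: helper559.
-/

set_option autoImplicit false

namespace Pool.Agent.Run7.h325.TW.FINp

open Filter Topology Finset Pool.Agent.Run7.h325.TW

theorem one_add_e (t : ℝ) : 1 + e t =
    2 * ((Real.cos (Real.pi * t) : ℝ) : ℂ) * Complex.exp (((Real.pi * t : ℝ) : ℂ) * Complex.I) := by
  have h1 : Complex.exp (2 * Real.pi * t * Complex.I) =
      Complex.exp (((Real.pi * t : ℝ) : ℂ) * Complex.I) *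
        Complex.exp (((Real.pi * t : ℝ) : ℂ) * Complex.I) := by
    rw [← Complex.exp_add]
    congr 1
    push_cast
    ring
  have h2 : Complex.exp (-(((Real.pi * t : ℝ) : ℂ) * Complex.I)) *
      Complex.exp (((Real.pi * t : ℝ) : ℂ) * Complex.I) = 1 := by
    rw [← Complex.exp_add, neg_add_cancel, Complex.exp_zero]
  have h3 : ((Real.cos (Real.pi * t) : ℝ) : ℂ) =
      (Complex.exp (((Real.pi * t : ℝ) : ℂ) * Complex.I) +
        Complex.exp (-(((Real.pi * t : ℝ) : ℂ) * Complex.I))) / 2 := by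
    rw [Complex.ofReal_cos, Complex.cos, neg_mul]
  unfold e
  rw [h1, h3]
  linear_combination -h2

theorem norm_one_add_e (t : ℝ) : ‖1 + e t‖ = 2 * cs t := by
  rw [one_add_e, norm_mul, norm_mul, Complex.norm_exp_ofReal_mul_I, mul_one, Complex.norm_real,
    Real.norm_eq_abs]
  unfold cs
  norm_num

theorem ne_of_cs {t : ℝ} (h : cs t ≠ 0) : 1 + e t ≠ 0 := by
  intro h0
  apply h
  have := norm_one_add_e t
  rw [h0, norm_zero] at this
  linarith

/-- the solution along the orbit -/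
noncomputable def g (α β x : ℝ) : ℤ → ℂ
  | Int.ofNat k => ∏ n ∈ range k, (1 + e (β * (x + ((n : ℤ) : ℝ)))) / (1 + e (α * (x + ((n : ℤ) : ℝ))))
  | Int.negSucc k => ∏ n ∈ range (k + 1), (1 + e (α * (x + ((-((n : ℤ) + 1) : ℤ) : ℝ)))) /
      (1 + e (β * (x + ((-((n : ℤ) + 1) : ℤ) : ℝ))))

theorem g_nat (α β x : ℝ) (k : ℕ) : g α β x (k : ℤ) =
    ∏ n ∈ range k, (1 + e (β * (x + ((n : ℤ) : ℝ)))) / (1 + e (α * (x + ((n : ℤ) : ℝ)))) := rfl

theorem g_neg (α β x : ℝ) (k : ℕ) : g α β x (-(k : ℤ)) =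
    ∏ n ∈ range k, (1 + e (α * (x + ((-((n : ℤ) + 1) : ℤ) : ℝ)))) /
      (1 + e (β * (x + ((-((n : ℤ) + 1) : ℤ) : ℝ)))) := by
  cases k with
  | zero =>
    show g α β x ((0 : ℕ) : ℤ) = _
    rw [g_nat, range_zero, prod_empty, prod_empty]
  | succ k => rfl

theorem norm_g_nat (α β x : ℝ) (k : ℕ) : ‖g α β x (k : ℤ)‖ = FF k α β x := by
  rw [g_nat, norm_prod]
  unfold FF
  refine prod_congr rfl fun n _ => ?_
  rw [norm_div, norm_one_add_e, norm_one_add_e, mul_div_mul_left _ _ two_ne_zero]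
  push_cast
  rfl

theorem norm_g_neg (α β x : ℝ) (k : ℕ) : ‖g α β x (-(k : ℤ))‖ = BB k α β x := by
  rw [g_neg, norm_prod]
  unfold BB
  refine prod_congr rfl fun n _ => ?_
  rw [norm_div, norm_one_add_e, norm_one_add_e, mul_div_mul_left _ _ two_ne_zero]
  have h : x + ((-((n : ℤ) + 1) : ℤ) : ℝ) = x - (n + 1) := by
    push_cast
    ring
  rw [h]

theorem g_rel (α β x : ℝ) (hα : ∀ n : ℤ, cs (α * (x + n)) ≠ 0)
    (hβ : ∀ n : ℤ, cs (β * (x + n)) ≠ 0) (N : ℤ) :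
    g α β x (N + 1) * (1 + e (α * (x + N))) = g α β x N * (1 + e (β * (x + N))) := by
  rcases Int.eq_nat_or_neg N with ⟨k, rfl | rfl⟩
  · have e1 : ((k : ℤ) + 1) = ((k + 1 : ℕ) : ℤ) := by push_cast; rfl
    rw [e1, g_nat, g_nat, prod_range_succ, mul_assoc, div_mul_cancel₀ _ (ne_of_cs (hα (k : ℤ)))]
  · cases k with
    | zero =>
      have e1 : (-((0 : ℕ) : ℤ) + 1) = ((1 : ℕ) : ℤ) := by norm_num
      have e2 : (-((0 : ℕ) : ℤ)) = ((0 : ℕ) : ℤ) := by norm_num
      rw [e1, e2, g_nat, g_nat, prod_range_one, range_zero, prod_empty, one_mul,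
        div_mul_cancel₀ _ (ne_of_cs (hα ((0 : ℕ) : ℤ)))]
    | succ k =>
      have e1 : (-((k + 1 : ℕ) : ℤ) + 1) = -(k : ℤ) := by push_cast; ring
      have e2 : (-((k + 1 : ℕ) : ℤ)) = -((k : ℤ) + 1) := by push_cast; rfl
      rw [e1, g_neg, g_neg, prod_range_succ, e2, mul_assoc,
        div_mul_cancel₀ _ (ne_of_cs (hβ (-((k : ℤ) + 1))))]

theorem g_ne (α β x : ℝ) (hα : ∀ n : ℤ, cs (α * (x + n)) ≠ 0)
    (hβ : ∀ n : ℤ, cs (β * (x + n)) ≠ 0) (N : ℤ) : g α β x N ≠ 0 := by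
  rcases Int.eq_nat_or_neg N with ⟨k, rfl | rfl⟩
  · rw [g_nat]
    exact prod_ne_zero_iff.2 fun n _ => div_ne_zero (ne_of_cs (hβ _)) (ne_of_cs (hα _))
  · rw [g_neg]
    exact prod_ne_zero_iff.2 fun n _ => div_ne_zero (ne_of_cs (hα _)) (ne_of_cs (hβ _))

theorem t_FIN : S_FIN := by
  intro α β x hα hβ hF hB
  have key : ∀ N : ℤ, ⌊x + (N : ℝ) - x⌋ = N := by
    intro N
    rw [add_sub_cancel_left, Int.floor_intCast]
  refine ⟨fun y => g α β x ⌊y - x⌋, ?_, ?_, ?_⟩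
  · intro N
    show g α β x ⌊x + N + 1 - x⌋ * _ = g α β x ⌊x + N - x⌋ * _
    have e1 : x + (N : ℝ) + 1 = x + ((N + 1 : ℤ) : ℝ) := by push_cast; ring
    rw [e1, key, key]
    exact g_rel α β x hα hβ N
  · intro N
    show g α β x ⌊x + N - x⌋ ≠ 0
    rw [key]
    exact g_ne α β x hα hβ N
  · have e1 : (fun N : ℤ => g α β x ⌊x + (N : ℝ) - x⌋) = g α β x := by
      funext N
      rw [key]
    show Tendsto (fun N : ℤ => g α β x ⌊x + (N : ℝ) - x⌋) cofinite (𝓝 0)
    rw [e1, Metric.tendsto_nhds]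
    intro ε hε
    obtain ⟨K1, hK1⟩ := (Metric.tendsto_atTop.1 hF) ε hε
    obtain ⟨K2, hK2⟩ := (Metric.tendsto_atTop.1 hB) ε hε
    rw [Filter.eventually_cofinite]
    refine (Set.finite_Ioo (-((K1 + K2 + 1 : ℕ) : ℤ)) ((K1 + K2 + 1 : ℕ) : ℤ)).subset ?_
    intro N hN
    rw [Set.mem_ofPred_eq, dist_zero_right] at hN
    by_contra hcon
    apply hN
    rcases Int.eq_nat_or_neg N with ⟨k, rfl | rfl⟩
    · rw [norm_g_nat]
      have hk : K1 ≤ k := by
        by_contra h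
        apply hcon
        constructor
        · omega
        · omega
      have := hK1 k hk
      rw [Real.dist_eq, sub_zero] at this
      exact lt_of_le_of_lt (le_abs_self _) this
    · rw [norm_g_neg]
      have hk : K2 ≤ k := by
        by_contra h
        apply hcon
        constructor
        · omega
        · omega
      have := hK2 k hk
      rw [Real.dist_eq, sub_zero] at this
      exact lt_of_le_of_lt (le_abs_self _) this

end Pool.Agent.Run7.h325.TW.FINp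

namespace Pool.Agent.Run7.h325.TW

theorem t_FIN : S_FIN := FINp.t_FIN

end Pool.Agent.Run7.h325.TW
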