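import Pool.Agent.Run7.h325.TW.Stm

/-! INIT (helper415) for project TW. -/

set_option autoImplicit false

namespace Pool.Agent.Run7.h325.TW

theorem t_INIT (hAR : S_AR) : S_INIT := by
  intro α₀ β₀ hα1 hα2 hβ1 hβ2 ε hε
  set δ : ℝ := min ε (min (min (α₀ - 1) (2 - α₀)) (min (β₀ - 1) (2 - β₀))) with hδ
  have hδpos : 0 < δ := by
    rw [hδ]
    exact lt_min hε (lt_min (lt_min (by linarith) (by linarith))
      (lt_min (by linarith) (by linarith)))
  have hδ1 : δ ≤ ε := min_le_left _ _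
  have hδr : δ ≤ min (min (α₀ - 1) (2 - α₀)) (min (β₀ - 1) (2 - β₀)) := min_le_right _ _
  have hδ2 : δ ≤ α₀ - 1 := hδr.trans ((min_le_left _ _).trans (min_le_left _ _))
  have hδ3 : δ ≤ 2 - α₀ := hδr.trans ((min_le_left _ _).trans (min_le_right _ _))
  have hδ4 : δ ≤ β₀ - 1 := hδr.trans ((min_le_right _ _).trans (min_le_left _ _))
  have hδ5 : δ ≤ 2 - β₀ := hδr.trans ((min_le_right _ _).trans (min_le_right _ _))
  obtain ⟨n, hn⟩ := exists_nat_gt (1 / δ)
  -- m' = n + 1, m = 2 m' + 3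
  have hnpos : (0 : ℝ) < n := lt_trans (by positivity) hn
  have hn1 : 1 < δ * n := by
    rw [div_lt_iff₀ hδpos] at hn; linarith
  set v : ℝ := (n : ℝ) + 1 / 2 with hv
  have hvpos : 0 < v := by rw [hv]; positivity
  set u : ℝ := ((2 * (n + 1) + 3 : ℕ) : ℝ) + 1 / 2 with hu
  have hu' : u = 2 * n + 5 + 1 / 2 := by rw [hu]; push_cast; ring
  have hupos : 0 < u := by rw [hu']; positivity
  set k : ℕ := ⌊α₀ * v⌋₊ with hk
  set K : ℕ := ⌊β₀ * u⌋₊ with hK
  have hk1 : (k : ℝ) ≤ α₀ * v := Nat.floor_le (by positivity)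
  have hk2 : α₀ * v < k + 1 := Nat.lt_floor_add_one _
  have hK1 : (K : ℝ) ≤ β₀ * u := Nat.floor_le (by positivity)
  have hK2 : β₀ * u < K + 1 := Nat.lt_floor_add_one _
  set α : ℝ := (k + 1 / 2) / v with hα
  set β : ℝ := (K + 1 / 2) / u with hβ
  have hαv : α * v = k + 1 / 2 := by rw [hα]; field_simp
  have hβu : β * u = K + 1 / 2 := by rw [hβ]; field_simp
  have hδv : 1 < δ * v := by rw [hv]; nlinarith
  have hδu : 1 < δ * u := by rw [hu']; nlinarith
  have hα3 : α - α₀ < δ / 2 := by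
    have : (α - α₀) * v < δ / 2 * v := by nlinarith
    exact lt_of_mul_lt_mul_right this hvpos.le
  have hα4 : -(δ / 2) < α - α₀ := by
    have : -(δ / 2) * v < (α - α₀) * v := by nlinarith
    exact lt_of_mul_lt_mul_right this hvpos.le
  have hβ3 : β - β₀ < δ / 2 := by
    have : (β - β₀) * u < δ / 2 * u := by nlinarith
    exact lt_of_mul_lt_mul_right this hupos.le
  have hβ4 : -(δ / 2) < β - β₀ := by
    have : -(δ / 2) * u < (β - β₀) * u := by nlinarith
    exact lt_of_mul_lt_mul_right this hupos.le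
  have hkK : k < K := by
    have h1 : (k : ℝ) < 2 * v := by nlinarith
    have h2 : u - 1 < K := by nlinarith
    have h3 : (k : ℝ) < K := by rw [hu'] at h2; rw [hv] at h1; linarith
    exact_mod_cast h3
  set τ : ℝ := min (δ / 2) (1 / 2) with hτ
  have hτpos : 0 < τ := lt_min (by linarith) (by norm_num)
  have hτ1 : τ ≤ δ / 2 := min_le_left _ _
  have hτ2 : τ ≤ 1 / 2 := min_le_right _ _
  obtain ⟨a', b', v', u', Q, hN0, hQ1, ha, hb', hv', huv, hav, hbu, hP, hj⟩ :=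
    hAR α β v u (2 * (n + 1) + 3 + (n + 1)) k K (by linarith) (by linarith) (by linarith)
      (by linarith) hvpos hupos (by rw [hu', hv]; push_cast; ring) hαv hβu hkK τ hτpos
      (2 * (2 * (n + 1) + 3) + 3)
  rw [abs_lt] at ha hb' hv'
  have hvv : v = ((n + 1 : ℕ) : ℝ) - 1 / 2 := by rw [hv]; push_cast; ring
  refine ⟨a', b', ((n + 1 : ℕ) : ℝ) - v', 2 * (n + 1) + 3, n + 1, Q, ?_, ?_,
    ⟨?_, ?_, ?_, ?_, ?_, ?_, by omega, ⟨K, ?_⟩, ⟨k, ?_⟩⟩, by omega, hQ1, hP, ?_⟩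
  · rw [abs_lt]; constructor <;> linarith
  · rw [abs_lt]; constructor <;> linarith
  · linarith
  · linarith
  · linarith
  · linarith
  · linarith
  · linarith
  · have : ((n + 1 : ℕ) : ℝ) - v' + ((2 * (n + 1) + 3 : ℕ) : ℝ) = u' := by
      push_cast at huv ⊢; linarith
    rw [this, hbu]
  · have : ((n + 1 : ℕ) : ℝ) - (((n + 1 : ℕ) : ℝ) - v') = v' := by ring
    rw [this, hav]
  · intro j h1 h2 z
    exact hj j h1 h2 z

end Pool.Agent.Run7.h325.TW
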