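import Pool.Agent.Run7.h325.TW.Stm

set_option autoImplicit false

namespace Pool.Agent.Run7.h325.TW

open Filter Topology Finset

namespace SMBaux

theorem cs_cont : Continuous cs := by
  unfold cs
  fun_prop

theorem cs_of_int (K : ℤ) : cs ((K : ℝ) + 1 / 2) = 0 := by
  unfold cs
  rw [abs_eq_zero, Real.cos_eq_zero_iff]
  exact ⟨K, by ring⟩

theorem cs_eq_zero {t : ℝ} (h : cs t = 0) : ∃ l : ℤ, t = l + 1 / 2 := by
  unfold cs at h
  rw [abs_eq_zero, Real.cos_eq_zero_iff] at h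
  obtain ⟨k, hk⟩ := h
  refine ⟨k, ?_⟩
  have hp : Real.pi ≠ 0 := Real.pi_ne_zero
  have h2 : Real.pi * t = Real.pi * (k + 1 / 2) := by rw [hk]; ring
  exact mul_left_cancel₀ hp h2

theorem ne (β x : ℝ) (m m' Q : ℕ) (K : ℕ) (hK : β * (x + m) = K + 1 / 2)
    (hb : ∀ j : ℕ, 1 ≤ j → j ≤ m + m' + Q → ∀ z : ℤ, β * j ≠ z) (n : ℤ)
    (h1 : -((m' : ℤ) + Q) ≤ n) (h2 : n < m) : cs (β * (x + n)) ≠ 0 := by
  intro h
  obtain ⟨l, hl⟩ := cs_eq_zero h
  have h3 := hb ((m : ℤ) - n).toNat (by omega) (by omega) ((K : ℤ) - l)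
  apply h3
  have h4 : ((((m : ℤ) - n).toNat : ℕ) : ℝ) = (m : ℝ) - n := by
    have h5 : ((((m : ℤ) - n).toNat : ℕ) : ℤ) = (m : ℤ) - n := Int.toNat_of_nonneg (by omega)
    have h6 : (((((m : ℤ) - n).toNat : ℕ) : ℤ) : ℝ) = (((m : ℤ) - n : ℤ) : ℝ) := by rw [h5]
    push_cast at h6
    exact h6
  rw [h4]
  push_cast
  have h7 : β * ((m : ℝ) - n) = β * (x + m) - β * (x + n) := by ring
  rw [h7, hK, hl]
  ring

end SMBaux

open SMBaux

/-- **SMB**. -/
theorem t_SMB : S_SMB := by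
  rintro α β x m m' Q ⟨⟨ha1, ha2, hb1, hb2, hx0, hx1, hm', ⟨K, hK⟩, ⟨k, hk⟩⟩, h3, hQ, hp, hb⟩ η hη
  have hne := ne β x m m' Q K hK hb
  -- continuity
  have hcB : ∀ c : ℝ, ContinuousAt (fun p : ℝ × ℝ × ℝ => cs (p.2.1 * (p.2.2 + c))) (α, β, x) :=
    fun c => (cs_cont.comp (by fun_prop)).continuousAt
  have hcA : ∀ c : ℝ, ContinuousAt (fun p : ℝ × ℝ × ℝ => cs (p.1 * (p.2.2 + c))) (α, β, x) :=
    fun c => (cs_cont.comp (by fun_prop)).continuousAt
  have hA : ∀ N ∈ Icc m' (m' + Q), ∀ᶠ p : ℝ × ℝ × ℝ in 𝓝 (α, β, x), BB N p.1 p.2.1 p.2.2 ≤ η := by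
    intro N hN
    rw [mem_Icc] at hN
    have hc : ContinuousAt (fun p : ℝ × ℝ × ℝ => BB N p.1 p.2.1 p.2.2) (α, β, x) := by
      unfold BB
      refine tendsto_finsetProd _ (fun n hn => ?_)
      rw [mem_range] at hn
      have e1 := hcA (-((n : ℝ) + 1))
      have e2 := hcB (-((n : ℝ) + 1))
      have e3 : cs (β * (x + (-((n : ℝ) + 1)))) ≠ 0 := by
        have := hne (-((n : ℤ) + 1)) (by omega) (by omega)
        push_cast at this
        exact this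
      exact e1.div e2 e3
    have hz : BB N α β x = 0 := by
      unfold BB
      refine Finset.prod_eq_zero (i := m' - 1) (mem_range.2 (by omega)) ?_
      have e1 : ((m' - 1 : ℕ) : ℝ) + 1 = m' := by
        have : m' - 1 + 1 = m' := by omega
        exact_mod_cast this
      rw [e1]
      have e2 : α * (x - m') = ((-(k : ℤ) - 1 : ℤ) : ℝ) + 1 / 2 := by
        push_cast
        have : α * (x - m') = -(α * (m' - x)) := by ring
        rw [this, hk]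
        ring
      rw [e2, cs_of_int, zero_div]
    have h0 : (fun p : ℝ × ℝ × ℝ => BB N p.1 p.2.1 p.2.2) (α, β, x) < η := by
      show BB N α β x < η
      rw [hz]
      exact hη
    filter_upwards [hc.eventually_lt_const h0] with p hp using hp.le
  have hB : ∀ n ∈ Ico (-((m' : ℤ) + Q)) (m : ℤ), ∀ᶠ p : ℝ × ℝ × ℝ in 𝓝 (α, β, x),
      cs (p.2.1 * (p.2.2 + n)) ≠ 0 := by
    intro n hn
    rw [mem_Ico] at hn
    exact (hcB n).eventually_ne (hne n hn.1 hn.2)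
  have hC : ∀ j ∈ Icc 1 (m + m' + Q), ∀ᶠ p : ℝ × ℝ × ℝ in 𝓝 (α, β, x),
      ∀ z : ℤ, p.2.1 * j ≠ z := by
    intro j hj
    rw [mem_Icc] at hj
    have hop : IsOpen (Set.range ((↑) : ℤ → ℝ))ᶜ :=
      Int.isClosedEmbedding_coe_real.isClosed_range.isOpen_compl
    have hc : ContinuousAt (fun p : ℝ × ℝ × ℝ => p.2.1 * (j : ℝ)) (α, β, x) := by
      fun_prop
    have hmem : β * (j : ℝ) ∈ (Set.range ((↑) : ℤ → ℝ))ᶜ := by
      rintro ⟨z, hz⟩
      exact hb j hj.1 hj.2 z hz.symm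
    filter_upwards [hc.preimage_mem_nhds (hop.mem_nhds hmem)] with p hp z hz
    exact hp ⟨z, hz.symm⟩
  have hall := ((Filter.eventually_all_finset _).2 hA).and
    (((Filter.eventually_all_finset _).2 hB).and ((Filter.eventually_all_finset _).2 hC))
  obtain ⟨ε, hε, hball⟩ := Metric.eventually_nhds_iff.1 hall
  refine ⟨ε / 2, by positivity, fun α' β' x' h1 h2 h4 => ?_⟩
  have hd : dist (α', β', x') (α, β, x) < ε := by
    rw [Prod.dist_eq, Prod.dist_eq, Real.dist_eq, Real.dist_eq, Real.dist_eq]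
    refine max_lt (by linarith) (max_lt (by linarith) (by linarith))
  obtain ⟨g1, g2, g3⟩ := hball hd
  refine ⟨fun N hN1 hN2 => g1 N (mem_Icc.2 ⟨hN1, hN2⟩), fun n hn1 hn2 => ?_, fun j hj1 hj2 z => ?_⟩
  · exact g2 n (mem_Ico.2 ⟨hn1, hn2⟩)
  · exact g3 j (mem_Icc.2 ⟨hj1, hj2⟩) z

end Pool.Agent.Run7.h325.TW
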