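import Pool.Agent.Run7.h325.TW.Stm

/-! SMF (helper183) -/

set_option autoImplicit false

namespace Pool.Agent.Run7.h325.TW

open Filter Topology Finset

theorem smf_cs_cont : Continuous cs := by
  unfold cs
  fun_prop

theorem smf_cs_zero {t : ℝ} : cs t = 0 ↔ ∃ l : ℤ, t = l + 1 / 2 := by
  unfold cs
  rw [abs_eq_zero, Real.cos_eq_zero_iff]
  refine exists_congr fun l => ?_
  have := Real.pi_pos
  constructor
  · intro h
    have h2 : Real.pi * t = Real.pi * (l + 1 / 2) := by rw [h]; ring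
    exact mul_left_cancel₀ this.ne' h2
  · intro h
    rw [h]; ring

theorem smf_core (α β x : ℝ) (S T : Finset ℕ) (U : Finset ℤ) (η : ℝ) (hη : 0 < η)
    (h1 : ∀ N ∈ S, (∀ n ∈ range N, cs (α * (x + n)) ≠ 0) ∧ ∃ n ∈ range N, cs (β * (x + n)) = 0)
    (h2 : ∀ n ∈ U, cs (α * (x + n)) ≠ 0) (h3 : ∀ j ∈ T, ∀ z : ℤ, α * j ≠ z) :
    ∃ r : ℝ, 0 < r ∧ ∀ α' β' x' : ℝ, |α' - α| ≤ r → |β' - β| ≤ r → |x' - x| ≤ r →
      (∀ N ∈ S, FF N α' β' x' ≤ η) ∧ (∀ n ∈ U, cs (α' * (x' + n)) ≠ 0) ∧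
      (∀ j ∈ T, ∀ z : ℤ, α' * j ≠ z) := by
  have hcs := smf_cs_cont
  have e1 : ∀ᶠ p : ℝ × ℝ × ℝ in 𝓝 (α, β, x), ∀ N ∈ S, FF N p.1 p.2.1 p.2.2 < η := by
    rw [Filter.eventually_all_finset]
    intro N hN
    obtain ⟨i1, n, hn, i2⟩ := h1 N hN
    have hz : FF N α β x = 0 := by
      unfold FF
      exact prod_eq_zero hn (by rw [i2, zero_div])
    have ht : Tendsto (fun p : ℝ × ℝ × ℝ => FF N p.1 p.2.1 p.2.2) (𝓝 (α, β, x))
        (𝓝 (FF N α β x)) := by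
      unfold FF
      refine tendsto_finsetProd _ fun n hn => ?_
      have c1 : Continuous fun p : ℝ × ℝ × ℝ => cs (p.2.1 * (p.2.2 + n)) :=
        hcs.comp (by fun_prop)
      have c2 : Continuous fun p : ℝ × ℝ × ℝ => cs (p.1 * (p.2.2 + n)) :=
        hcs.comp (by fun_prop)
      exact (c1.tendsto (α, β, x)).div (c2.tendsto (α, β, x)) (i1 n hn)
    rw [hz] at ht
    exact ht.eventually (gt_mem_nhds hη)
  have e2 : ∀ᶠ p : ℝ × ℝ × ℝ in 𝓝 (α, β, x), ∀ n ∈ U, cs (p.1 * (p.2.2 + n)) ≠ 0 := by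
    rw [Filter.eventually_all_finset]
    intro n hn
    have c2 : Continuous fun p : ℝ × ℝ × ℝ => cs (p.1 * (p.2.2 + n)) :=
      hcs.comp (by fun_prop)
    exact (c2.tendsto (α, β, x)).eventually_ne (h2 n hn)
  have e3 : ∀ᶠ p : ℝ × ℝ × ℝ in 𝓝 (α, β, x), ∀ j ∈ T, ∀ z : ℤ, p.1 * j ≠ z := by
    rw [Filter.eventually_all_finset]
    intro j hj
    have c3 : Continuous fun p : ℝ × ℝ × ℝ => p.1 * j := by fun_prop
    have hop : IsOpen (Set.range ((↑) : ℤ → ℝ))ᶜ :=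
      Int.isClosedEmbedding_coe_real.isClosed_range.isOpen_compl
    have := (c3.tendsto (α, β, x)).eventually (hop.mem_nhds (by
      rintro ⟨z, hz⟩
      exact h3 j hj z hz.symm))
    filter_upwards [this] with p hp z hz
    exact hp ⟨z, hz.symm⟩
  obtain ⟨δ, hδ, h⟩ := Metric.eventually_nhds_iff.1 (e1.and (e2.and e3))
  refine ⟨δ / 2, by positivity, fun α' β' x' j1 j2 j3 => ?_⟩
  have hd : dist ((α', β', x') : ℝ × ℝ × ℝ) (α, β, x) < δ := by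
    rw [Prod.dist_eq, Prod.dist_eq, Real.dist_eq, Real.dist_eq, Real.dist_eq]
    have : max |α' - α| (max |β' - β| |x' - x|) ≤ δ / 2 := max_le j1 (max_le j2 j3)
    exact lt_of_le_of_lt this (by linarith)
  obtain ⟨k1, k2, k3⟩ := h hd
  exact ⟨fun N hN => (k1 N hN).le, k2, k3⟩

theorem t_SMF : S_SMF := by
  intro α β x m m' q h η hη
  obtain ⟨hc, hq1, hq, hp, hα⟩ := h
  obtain ⟨a1, a2, b1, b2, x0, x1, hm', ⟨K, hK⟩, ⟨k, hk⟩⟩ := hc
  have hne : ∀ n : ℤ, -(m' : ℤ) < n → n ≤ m + q → cs (α * (x + n)) ≠ 0 := by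
    intro n h1 h2 h3
    obtain ⟨l, h4⟩ := smf_cs_zero.1 h3
    obtain ⟨j, hj⟩ : ∃ j : ℕ, (j : ℤ) = n + m' := ⟨(n + m').toNat, Int.toNat_of_nonneg (by omega)⟩
    apply hα j (by omega) (by omega) (l + k + 1)
    have h5 : (j : ℝ) = n + m' := by exact_mod_cast hj
    rw [h5]
    push_cast
    linarith
  obtain ⟨r, hr, h⟩ := smf_core α β x (Finset.Icc (m + 1) (m + q)) (Finset.Icc 1 (m + m' + q))
    (Finset.Icc (-(m' : ℤ) + 1) (m + q)) η hη (fun N hN => by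
      rw [Finset.mem_Icc] at hN
      refine ⟨fun n hn => ?_, m, Finset.mem_range.2 (by omega), smf_cs_zero.2 ⟨K, by
        rw [hK]; push_cast; ring⟩⟩
      have := Finset.mem_range.1 hn
      exact_mod_cast hne n (by omega) (by omega))
    (fun n hn => by
      rw [Finset.mem_Icc] at hn
      exact hne n (by omega) (by omega))
    (fun j hj => by
      rw [Finset.mem_Icc] at hj
      exact hα j hj.1 hj.2)
  refine ⟨r, hr, fun α' β' x' j1 j2 j3 => ?_⟩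
  obtain ⟨k1, k2, k3⟩ := h α' β' x' j1 j2 j3
  exact ⟨fun N i1 i2 => k1 N (Finset.mem_Icc.2 ⟨i1, i2⟩),
    fun n i1 i2 => k2 n (Finset.mem_Icc.2 ⟨by omega, i2⟩),
    fun j i1 i2 => k3 j (Finset.mem_Icc.2 ⟨i1, i2⟩)⟩

end Pool.Agent.Run7.h325.TW
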