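import Pool.Agent.Run7.h325.TW.Stm

/-! STB (helper415) for project TW. -/

set_option autoImplicit false

namespace Pool.Agent.Run7.h325.TW

theorem t_STB (hAR : S_AR) : S_STB := by
  intro α β x m m' Q hSB ε hε
  obtain ⟨⟨hα1, hα2, hβ1, hβ2, hx0, hx1, hm', ⟨K, hK⟩, ⟨k, hk⟩⟩, hmq, hq, ⟨p, hp⟩, -⟩ := hSB
  have hm'R : (1 : ℝ) ≤ m' := by exact_mod_cast hm'
  have hmR : (0 : ℝ) ≤ m := Nat.cast_nonneg m
  have hqR : (1 : ℝ) ≤ Q := by exact_mod_cast hq
  have hmqR : 2 * (m : ℝ) + 3 ≤ m' + Q := by exact_mod_cast hmq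
  have hb : α * (m' + Q - x) = ((k + p : ℕ) : ℝ) + 1 / 2 := by
    push_cast
    have : α * (m' + Q - x) = α * (m' - x) + α * Q := by ring
    rw [this, hk, hp]; ring
  have hkK : K < k + p := by
    have h1 : (K : ℝ) + 1 / 2 < 2 * (1 + m) := by
      rw [← hK]; nlinarith
    have h2 : (m' : ℝ) + Q - 1 < ((k + p : ℕ) : ℝ) + 1 / 2 := by
      rw [← hb]; nlinarith
    have h3 : (K : ℝ) < ((k + p : ℕ) : ℝ) := by linarith
    exact_mod_cast h3
  set δ : ℝ := min ε (min (min (α - 1) (2 - α)) (min (min (β - 1) (2 - β)) (min x (1 - x)))) with hδ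
  have hδpos : 0 < δ := by
    rw [hδ]
    refine lt_min hε (lt_min (lt_min (by linarith) (by linarith))
      (lt_min (lt_min (by linarith) (by linarith)) (lt_min hx0 (by linarith))))
  have hδ1 : δ ≤ ε := min_le_left _ _
  have hδr : δ ≤ min (min (α - 1) (2 - α)) (min (min (β - 1) (2 - β)) (min x (1 - x))) :=
    min_le_right _ _
  have hδ2 : δ ≤ α - 1 := hδr.trans ((min_le_left _ _).trans (min_le_left _ _))
  have hδ3 : δ ≤ 2 - α := hδr.trans ((min_le_left _ _).trans (min_le_right _ _))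
  have hδr2 : δ ≤ min (min (β - 1) (2 - β)) (min x (1 - x)) := hδr.trans (min_le_right _ _)
  have hδ4 : δ ≤ β - 1 := hδr2.trans ((min_le_left _ _).trans (min_le_left _ _))
  have hδ5 : δ ≤ 2 - β := hδr2.trans ((min_le_left _ _).trans (min_le_right _ _))
  have hδ6 : δ ≤ x := hδr2.trans ((min_le_right _ _).trans (min_le_left _ _))
  have hδ7 : δ ≤ 1 - x := hδr2.trans ((min_le_right _ _).trans (min_le_right _ _))
  obtain ⟨a', b', v', u', q, hN0, hQ1, ha, hb', hv, huv, hav, hbu, hP, hj⟩ :=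
    hAR β α (x + m) (m' + Q - x) (m + m' + Q) K (k + p) hβ1 hβ2 hα1 hα2 (by linarith)
      (by linarith) (by push_cast; ring) hK hb hkK δ hδpos (2 * (m' + Q) + 3)
  rw [abs_lt] at ha hb' hv
  refine ⟨b', a', v' - m, q, ?_, ?_, ?_, ⟨?_, ?_, ?_, ?_, ?_, ?_, by omega, ⟨K, ?_⟩, ⟨k + p, ?_⟩⟩,
    by omega, hQ1, hP, ?_⟩
  · rw [abs_lt]; constructor <;> linarith
  · rw [abs_lt]; constructor <;> linarith
  · rw [abs_lt]; constructor <;> linarith
  · linarith
  · linarith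
  · linarith
  · linarith
  · linarith
  · linarith
  · have : v' - (m : ℝ) + (m : ℝ) = v' := by ring
    rw [this, hav]
  · have : ((m' + Q : ℕ) : ℝ) - (v' - m) = u' := by
      push_cast at huv ⊢; linarith
    rw [this, hbu]
  · intro j h1 h2 z
    exact hj j h1 (by omega) z

end Pool.Agent.Run7.h325.TW
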