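import Pool.Agent.Run7.h325.TW.Stm

/-! STF (helper415) for project TW. -/

set_option autoImplicit false

namespace Pool.Agent.Run7.h325.TW

theorem t_STF (hAR : S_AR) : S_STF := by
  intro α β x m m' q hSF ε hε
  obtain ⟨⟨hα1, hα2, hβ1, hβ2, hx0, hx1, hm', ⟨K, hK⟩, ⟨k, hk⟩⟩, hmq, hq, ⟨p, hp⟩, -⟩ := hSF
  have hm'R : (1 : ℝ) ≤ m' := by exact_mod_cast hm'
  have hmR : (0 : ℝ) ≤ m := Nat.cast_nonneg m
  have hqR : (1 : ℝ) ≤ q := by exact_mod_cast hq
  have hmqR : 2 * (m' : ℝ) + 3 ≤ m + q := by exact_mod_cast hmq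
  have hb : β * (x + m + q) = ((K + p : ℕ) : ℝ) + 1 / 2 := by
    push_cast
    have : β * (x + m + q) = β * (x + m) + β * q := by ring
    rw [this, hK, hp]; ring
  have hkK : k < K + p := by
    have h1 : (k : ℝ) + 1 / 2 < 2 * m' := by
      rw [← hk]; nlinarith
    have h2 : (m : ℝ) + q < ((K + p : ℕ) : ℝ) + 1 / 2 := by
      rw [← hb]; nlinarith
    have h3 : (k : ℝ) < ((K + p : ℕ) : ℝ) := by linarith
    exact_mod_cast h3
  set δ : ℝ := min ε (min (min (α - 1) (2 - α)) (min (min (β - 1) (2 - β)) (min x (1 - x)))) with hδ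
  have hδpos : 0 < δ := by
    rw [hδ]
    refine lt_min hε (lt_min (lt_min (by linarith) (by linarith))
      (lt_min (lt_min (by linarith) (by linarith)) (lt_min hx0 (by linarith))))
  have hδ1 : δ ≤ ε := min_le_left _ _
  have hδr : δ ≤ min (min (α - 1) (2 - α)) (min (min (β - 1) (2 - β)) (min x (1 - x))) :=
    min_le_right _ _
  have hδ2 : δ ≤ α - 1 := hδr.trans ((min_le_left _ _).trans (min_le_left _ _))
  have hδ3 : δ ≤ 2 - α := hδr.trans ((min_le_left _ _).trans (min_le_right _ _))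
  have hδr2 : δ ≤ min (min (β - 1) (2 - β)) (min x (1 - x)) := hδr.trans (min_le_right _ _)
  have hδ4 : δ ≤ β - 1 := hδr2.trans ((min_le_left _ _).trans (min_le_left _ _))
  have hδ5 : δ ≤ 2 - β := hδr2.trans ((min_le_left _ _).trans (min_le_right _ _))
  have hδ6 : δ ≤ x := hδr2.trans ((min_le_right _ _).trans (min_le_left _ _))
  have hδ7 : δ ≤ 1 - x := hδr2.trans ((min_le_right _ _).trans (min_le_right _ _))
  obtain ⟨a', b', v', u', Q, hN0, hQ1, ha, hb', hv, huv, hav, hbu, hP, hj⟩ :=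
    hAR α β (m' - x) (x + m + q) (m + q + m') k (K + p) hα1 hα2 hβ1 hβ2 (by linarith)
      (by linarith) (by push_cast; ring) hk hb hkK δ hδpos (2 * (m + q) + 3)
  rw [abs_lt] at ha hb' hv
  refine ⟨a', b', m' - v', Q, ?_, ?_, ?_, ⟨?_, ?_, ?_, ?_, ?_, ?_, hm', ⟨K + p, ?_⟩, ⟨k, ?_⟩⟩,
    by omega, hQ1, hP, ?_⟩
  · rw [abs_lt]; constructor <;> linarith
  · rw [abs_lt]; constructor <;> linarith
  · rw [abs_lt]; constructor <;> linarith
  · linarith
  · linarith
  · linarith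
  · linarith
  · linarith
  · linarith
  · have : (m' : ℝ) - v' + ((m + q : ℕ) : ℝ) = u' := by
      push_cast at huv ⊢; linarith
    rw [this, hbu]
  · have : (m' : ℝ) - (m' - v') = v' := by ring
    rw [this, hav]
  · intro j h1 h2 z
    exact hj j h1 h2 z

end Pool.Agent.Run7.h325.TW
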