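import Pool.Agent.Run7.h325.TW.Stm

set_option autoImplicit false

namespace Pool.Agent.Run7.h325.TW

open Filter Topology Finset

/-- what a point near the centres of one round satisfies -/
def Prp (m m' m2 m2' : ℕ) (η : ℝ) (a b y : ℝ) : Prop :=
  (∀ N : ℕ, m' ≤ N → N ≤ m2' → BB N a b y ≤ η) ∧
  (∀ n : ℤ, -(m2' : ℤ) ≤ n → n < m → cs (b * (y + n)) ≠ 0) ∧
  (∀ j : ℕ, 1 ≤ j → j ≤ m2' → ∀ z : ℤ, b * j ≠ z) ∧
  (∀ N : ℕ, m < N → N ≤ m2 → FF N a b y ≤ η) ∧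
  (∀ n : ℤ, -(m2' : ℤ) < n → n ≤ m2 → cs (a * (y + n)) ≠ 0) ∧
  (∀ j : ℕ, 1 ≤ j → j ≤ m2 → ∀ z : ℤ, a * j ≠ z)

theorem round (hF : S_STF) (hB : S_STB) (hf : S_SMF) (hb : S_SMB)
    {α β x : ℝ} {m m' Q : ℕ} (h : SB α β x m m' Q) {R η : ℝ} (hR : 0 < R) (hη : 0 < η) :
    ∃ (α2 β2 x2 : ℝ) (m2 m2' Q2 : ℕ) (R2 : ℝ), SB α2 β2 x2 m2 m2' Q2 ∧ 0 < R2 ∧
      m + 1 ≤ m2 ∧ m' + 1 ≤ m2' ∧
      ∀ a b y : ℝ, |a - α2| ≤ R2 → |b - β2| ≤ R2 → |y - x2| ≤ R2 →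
        |a - α| ≤ R ∧ |b - β| ≤ R ∧ |y - x| ≤ R ∧ Prp m m' m2 m2' η a b y := by
  obtain ⟨r1, hr1, H1⟩ := hb α β x m m' Q h η hη
  have hρ1 : 0 < min r1 R := lt_min hr1 hR
  obtain ⟨α1, β1, x1, q, ha1, hb1, hx1, hS1⟩ := hB α β x m m' Q h (min r1 R / 2) (by positivity)
  obtain ⟨r2, hr2, H2⟩ := hf α1 β1 x1 m (m' + Q) q hS1 η hη
  have hρ2 : 0 < min r2 (min r1 R / 2) := lt_min hr2 (by positivity)
  obtain ⟨α2, β2, x2, Q2, ha2, hb2, hx2, hS2⟩ := hF α1 β1 x1 m (m' + Q) q hS1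
    (min r2 (min r1 R / 2) / 2) (by positivity)
  refine ⟨α2, β2, x2, m + q, m' + Q, Q2, min r2 (min r1 R / 2) / 2, hS2, by positivity, ?_, ?_, ?_⟩
  · have := hS1.2.2.1
    omega
  · have := h.2.2.1
    omega
  intro a b y ha hb' hy
  have e1 : min r2 (min r1 R / 2) ≤ r2 := min_le_left _ _
  have e2 : min r2 (min r1 R / 2) ≤ min r1 R / 2 := min_le_right _ _
  have e3 : min r1 R ≤ r1 := min_le_left _ _
  have e4 : min r1 R ≤ R := min_le_right _ _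
  have tri : ∀ u v w : ℝ, |u - w| ≤ |u - v| + |v - w| := fun u v w => abs_sub_le u v w
  have A1 := tri a α2 α1
  have A2 := tri a α1 α
  have B1 := tri b β2 β1
  have B2 := tri b β1 β
  have X1 := tri y x2 x1
  have X2 := tri y x1 x
  have P1 := H1 a b y (by linarith) (by linarith) (by linarith)
  have P2 := H2 a b y (by linarith) (by linarith) (by linarith)
  refine ⟨by linarith, by linarith, by linarith, ?_, ?_, ?_, ?_, ?_, ?_⟩
  · exact P1.1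
  · intro n h1 h2
    exact P1.2.1 n (by push_cast at h1; linarith) h2
  · intro j h1 h2
    exact P1.2.2 j h1 (by omega)
  · exact P2.1
  · intro n h1 h2
    exact P2.2.1 n (by push_cast at h1 ⊢; linarith) (by push_cast at h2 ⊢; linarith)
  · intro j h1 h2
    exact P2.2.2 j h1 (by omega)

/-- the data of a stage -/
structure St where
  α : ℝ
  β : ℝ
  x : ℝ
  m : ℕ
  m' : ℕ
  Q : ℕ
  R : ℝ
  h : SB α β x m m' Q
  hR : 0 < R

theorem next (hF : S_STF) (hB : S_STB) (hf : S_SMF) (hb : S_SMB) (s : ℕ) (t : St) :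
    ∃ t' : St, t.m + 1 ≤ t'.m ∧ t.m' + 1 ≤ t'.m' ∧
      ∀ a b y : ℝ, |a - t'.α| ≤ t'.R → |b - t'.β| ≤ t'.R → |y - t'.x| ≤ t'.R →
        |a - t.α| ≤ t.R ∧ |b - t.β| ≤ t.R ∧ |y - t.x| ≤ t.R ∧
          Prp t.m t.m' t'.m t'.m' (1 / ((s : ℝ) + 1)) a b y := by
  obtain ⟨α2, β2, x2, m2, m2', Q2, R2, h1, h2, h3, h4, h5⟩ :=
    round hF hB hf hb t.h t.hR (η := 1 / ((s : ℝ) + 1)) (by positivity)
  exact ⟨⟨α2, β2, x2, m2, m2', Q2, R2, h1, h2⟩, h3, h4, h5⟩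

theorem FF_nonneg (N : ℕ) (a b y : ℝ) : 0 ≤ FF N a b y :=
  Finset.prod_nonneg fun _ _ => div_nonneg (abs_nonneg _) (abs_nonneg _)

theorem BB_nonneg (N : ℕ) (a b y : ℝ) : 0 ≤ BB N a b y :=
  Finset.prod_nonneg fun _ _ => div_nonneg (abs_nonneg _) (abs_nonneg _)

theorem irr_of {a : ℝ} (h : ∀ j : ℕ, 1 ≤ j → ∀ z : ℤ, a * j ≠ z) : Irrational a := by
  rintro ⟨r, rfl⟩
  refine h r.den (Nat.one_le_iff_ne_zero.2 r.den_nz) r.num ?_
  have := Rat.mul_den_eq_num r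
  exact_mod_cast congrArg (fun q : ℚ => (q : ℝ)) this

theorem locate (m : ℕ → ℕ) (hm : ∀ s, m s + 1 ≤ m (s + 1)) (s0 N : ℕ) (h : m s0 < N) :
    ∃ s, s0 ≤ s ∧ m s < N ∧ N ≤ m (s + 1) := by
  have hs : ∀ s, s ≤ m s := by
    intro s
    induction s with
    | zero => exact Nat.zero_le _
    | succ s ih => exact (Nat.succ_le_succ ih).trans (hm s)
  have hex : ∃ s, s0 ≤ s ∧ N ≤ m (s + 1) := ⟨max s0 N, le_max_left _ _,
    (le_max_right s0 N).trans ((Nat.le_succ _).trans (hs _))⟩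
  classical
  refine ⟨Nat.find hex, (Nat.find_spec hex).1, ?_, (Nat.find_spec hex).2⟩
  by_contra hc
  push Not at hc
  rcases Nat.eq_or_lt_of_le (Nat.find_spec hex).1 with he | hlt
  · rw [← he] at hc
    omega
  · have h1 : Nat.find hex - 1 < Nat.find hex := by omega
    refine Nat.find_min hex h1 ⟨by omega, ?_⟩
    rwa [Nat.sub_add_cancel (by omega)]

theorem t_NEST (hF : S_STF) (hB : S_STB) (hf : S_SMF) (hb : S_SMB) (hI : S_INIT) : S_NEST := by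
  intro α₀ β₀ h1 h2 h3 h4 ε hε
  obtain ⟨α, β, x, m, m', Q, ha, hb', hS⟩ := hI α₀ β₀ h1 h2 h3 h4 (ε / 2) (by positivity)
  obtain ⟨hx0, hx1⟩ : 0 < x ∧ x < 1 := ⟨hS.1.2.2.2.2.1, hS.1.2.2.2.2.2.1⟩
  have hR0 : 0 < min (ε / 4) (min x (1 - x)) :=
    lt_min (by positivity) (lt_min hx0 (by linarith))
  choose nx hn using next hF hB hf hb
  let t0 : St := ⟨α, β, x, m, m', Q, min (ε / 4) (min x (1 - x)), hS, hR0⟩
  let t : ℕ → St := fun s => Nat.rec t0 (fun s u => nx s u) s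
  have ht : ∀ s, t (s + 1) = nx s (t s) := fun s => rfl
  let K : ℕ → Set (ℝ × ℝ × ℝ) := fun s => Metric.closedBall ((t s).α, (t s).β, (t s).x) (t s).R
  have hK : ∀ s a b y, (a, b, y) ∈ K s ↔
      |a - (t s).α| ≤ (t s).R ∧ |b - (t s).β| ≤ (t s).R ∧ |y - (t s).x| ≤ (t s).R := by
    intro s a b y
    simp only [K, Metric.mem_closedBall, Prod.dist_eq, max_le_iff, Real.dist_eq]
  have hanti : ∀ s, K (s + 1) ⊆ K s := by
    rintro s ⟨a, b, y⟩ hp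
    have hp1 := (hK (s + 1) a b y).1 hp
    have := (hn s (t s)).2.2 a b y hp1.1 hp1.2.1 hp1.2.2
    exact (hK s a b y).2 ⟨this.1, this.2.1, this.2.2.1⟩
  obtain ⟨⟨a, b, y⟩, hp⟩ := IsCompact.nonempty_iInter_of_sequence_nonempty_isCompact_isClosed K
    hanti (fun s => ⟨_, Metric.mem_closedBall_self (t s).hR.le⟩)
    (isCompact_closedBall _ _) (fun s => Metric.isClosed_closedBall)
  rw [Set.mem_iInter] at hp
  have hP : ∀ s, Prp (t s).m (t s).m' (t (s + 1)).m (t (s + 1)).m' (1 / ((s : ℝ) + 1)) a b y := by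
    intro s
    have h5 := (hK (s + 1) a b y).1 (hp (s + 1))
    exact ((hn s (t s)).2.2 a b y h5.1 h5.2.1 h5.2.2).2.2.2
  have hm : ∀ s, (t s).m + 1 ≤ (t (s + 1)).m := fun s => (hn s (t s)).1
  have hm' : ∀ s, (t s).m' + 1 ≤ (t (s + 1)).m' := fun s => (hn s (t s)).2.1
  have hsm : ∀ s, s ≤ (t s).m := by
    intro s
    induction s with
    | zero => exact Nat.zero_le _
    | succ s ih => exact (Nat.succ_le_succ ih).trans (hm s)
  have hsm' : ∀ s, s ≤ (t s).m' := by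
    intro s
    induction s with
    | zero => exact Nat.zero_le _
    | succ s ih => exact (Nat.succ_le_succ ih).trans (hm' s)
  have h0 := (hK 0 a b y).1 (hp 0)
  have e1 : (t 0).R ≤ ε / 4 := min_le_left _ _
  have e2 : (t 0).R ≤ x := (min_le_right _ _).trans (min_le_left _ _)
  have e3 : (t 0).R ≤ 1 - x := (min_le_right _ _).trans (min_le_right _ _)
  have g1 : |a - α| ≤ (t 0).R := h0.1
  have g2 : |b - β| ≤ (t 0).R := h0.2.1
  have g3 : |y - x| ≤ (t 0).R := h0.2.2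
  have g3' := abs_le.1 g3
  refine ⟨a, b, y, ?_, ?_, ?_, ?_, by linarith, by linarith, ?_, ?_, ?_, ?_⟩
  · have := abs_sub_le a α α₀
    linarith
  · have := abs_sub_le b β β₀
    linarith
  · exact irr_of fun j hj z => (hP j).2.2.2.2.2 j hj ((Nat.le_succ j).trans (hsm (j + 1))) z
  · exact irr_of fun j hj z => (hP j).2.2.1 j hj ((Nat.le_succ j).trans (hsm' (j + 1))) z
  · intro n
    have hs := hsm (n.natAbs + 1)
    have hs' := hsm' (n.natAbs + 1)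
    exact (hP n.natAbs).2.2.2.2.1 n (by omega) (by omega)
  · intro n
    have hs := hsm (n.natAbs + 1)
    have hs' := hsm' (n.natAbs + 1 + 1)
    exact (hP (n.natAbs + 1)).2.1 n (by omega) (by omega)
  · rw [Metric.tendsto_atTop]
    intro δ hδ
    obtain ⟨s0, hs0⟩ := exists_nat_one_div_lt hδ
    refine ⟨(t s0).m + 1, fun N hN => ?_⟩
    obtain ⟨s, hs1, hs2, hs3⟩ := locate (fun s => (t s).m) hm s0 N (by omega)
    have h6 := (hP s).2.2.2.1 N hs2 hs3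
    rw [Real.dist_eq, sub_zero, abs_of_nonneg (FF_nonneg _ _ _ _)]
    refine h6.trans_lt (lt_of_le_of_lt ?_ hs0)
    have : (s0 : ℝ) ≤ s := by exact_mod_cast hs1
    exact one_div_le_one_div_of_le (by positivity) (by linarith)
  · rw [Metric.tendsto_atTop]
    intro δ hδ
    obtain ⟨s0, hs0⟩ := exists_nat_one_div_lt hδ
    refine ⟨(t s0).m' + 1, fun N hN => ?_⟩
    obtain ⟨s, hs1, hs2, hs3⟩ := locate (fun s => (t s).m') hm' s0 N (by omega)
    have h6 := (hP s).1 N hs2.le hs3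
    rw [Real.dist_eq, sub_zero, abs_of_nonneg (BB_nonneg _ _ _ _)]
    refine h6.trans_lt (lt_of_le_of_lt ?_ hs0)
    have : (s0 : ℝ) ≤ s := by exact_mod_cast hs1
    exact one_div_le_one_div_of_le (by positivity) (by linarith)

end Pool.Agent.Run7.h325.TW
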