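import Mathlib

/-!
# MP_0ef687_an: a twisted recurrence along an orbit, decaying solutions for a dense set of pairs

`f(x+1)(1+e(αx)) = f(x)(1+e(βx))` along `x + ℤ`. For a dense set of pairs `(α, β)` in the square
`(1,2)²` there is an orbit with a nowhere vanishing solution that tends to `0` in both directions.
`|1 + e(t)| = 2 |cos(π t)|`.
-/

set_option autoImplicit false

namespace Pool.Agent.Run7.h325.TW

open Filter Topology Finset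

/-- `|cos(π t)| = |1 + e(t)| / 2` -/
noncomputable def cs (t : ℝ) : ℝ := |Real.cos (Real.pi * t)|

/-- forward product -/
noncomputable def FF (N : ℕ) (α β x : ℝ) : ℝ :=
  ∏ n ∈ range N, cs (β * (x + n)) / cs (α * (x + n))

/-- backward product -/
noncomputable def BB (N : ℕ) (α β x : ℝ) : ℝ :=
  ∏ n ∈ range N, cs (α * (x - (n + 1))) / cs (β * (x - (n + 1)))

/-- configuration: zero of the `β` factor at index `m ≥ 0`, zero of the `α` factor at `-m' < 0` -/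
def Cfg (α β x : ℝ) (m m' : ℕ) : Prop :=
  1 < α ∧ α < 2 ∧ 1 < β ∧ β < 2 ∧ 0 < x ∧ x < 1 ∧ 1 ≤ m' ∧
    (∃ K : ℕ, β * (x + m) = K + 1 / 2) ∧ (∃ k : ℕ, α * (m' - x) = k + 1 / 2)

/-- ready for a move of the `β` zero -/
def SF (α β x : ℝ) (m m' q : ℕ) : Prop :=
  Cfg α β x m m' ∧ 2 * m' + 3 ≤ m + q ∧ 1 ≤ q ∧ (∃ p : ℕ, β * q = p) ∧
    ∀ j : ℕ, 1 ≤ j → j ≤ m + m' + q → ∀ z : ℤ, α * j ≠ z

/-- ready for a move of the `α` zero -/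
def SB (α β x : ℝ) (m m' Q : ℕ) : Prop :=
  Cfg α β x m m' ∧ 2 * m + 3 ≤ m' + Q ∧ 1 ≤ Q ∧ (∃ p : ℕ, α * Q = p) ∧
    ∀ j : ℕ, 1 ≤ j → j ≤ m + m' + Q → ∀ z : ℤ, β * j ≠ z

/-- AR (arithmetic, 60-100 lines). PROOF. Let `P` be a large prime, `Q ∈ {⌊P/a⌋, ⌊P/a⌋ + 1}` (so
`Q < P`, as `a > 1`), `a' = P/Q`, `v' = (k+1/2)/a' = (2k+1)Q/(2P)`, `u' = M - v'`,
`D = 2MP - (2k+1)Q > 0`, so `u' = D/(2P)` and `b' = (K+1/2)/u' = (2K+1)P/D`. As `P → ∞` all of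
`a', v', u', b'` tend to `a, v, u, b`. Choose `Q` of the two candidates such that `2K+1` does not
divide `D`: the two values of `D` differ by `2k+1`, and `0 < 2k+1 < 2K+1`. If `b' j = z` is an
integer with `1 ≤ j ≤ M+Q` then `D z = (2K+1) P j`; `P` is prime to `D` (`P ∤ (2k+1) Q` since
`2k+1 < P`, `0 < Q < P`), so `D ∣ (2K+1) j`. Let `g = gcd(D, 2K+1)`; `g` is a proper divisor of the odd number
`2K+1`, so `3 g ≤ 2K+1`, and `D/g ∣ j`, so `3 D ≤ (2K+1) j ≤ (2K+1)(M+Q)`. But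
`D/(2K+1) = P/b'`, i.e. `3P ≤ b'(M+Q)`, while `P = a' Q`, `b' < 2`, `a' > 1`: `3 Q < 2 (M + Q)`,
impossible for `Q ≥ 2M`. -/
def S_AR : Prop :=
  ∀ (a b v u : ℝ) (M k K : ℕ), 1 < a → a < 2 → 1 < b → b < 2 → 0 < v → 0 < u → u + v = M →
    a * v = k + 1 / 2 → b * u = K + 1 / 2 → k < K → ∀ ε : ℝ, 0 < ε → ∀ N0 : ℕ,
    ∃ (a' b' v' u' : ℝ) (Q : ℕ), N0 ≤ Q ∧ 1 ≤ Q ∧ |a' - a| < ε ∧ |b' - b| < ε ∧ |v' - v| < ε ∧
      u' + v' = M ∧ a' * v' = k + 1 / 2 ∧ b' * u' = K + 1 / 2 ∧ (∃ p : ℕ, a' * Q = p) ∧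
      ∀ j : ℕ, 1 ≤ j → j ≤ M + Q → ∀ z : ℤ, b' * j ≠ z

/-- SMF (continuity, 50-80 lines). PROOF. `cs (α (x+n)) ≠ 0` for the integers `n` with
`-m' < n ≤ m + q`: otherwise `α (x + n) = l + 1/2`, and subtracting `α (x - m') = -(k + 1/2)` gives
`α (n + m') = l + k + 1`, an integer, with `1 ≤ n + m' ≤ m + m' + q`. So for `m < N ≤ m + q` the
function `FF N` is continuous at the point `(α, β, x)` of `ℝ³` and vanishes there (factor `n = m`,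
`cos (π (K + 1/2)) = 0`). The other two conditions are open conditions, finitely many `n`, `j`
(for `α' j ≠ z`: the set `ℝ ∖ ℤ` is open). -/
def S_SMF : Prop :=
  ∀ (α β x : ℝ) (m m' q : ℕ), SF α β x m m' q → ∀ η : ℝ, 0 < η → ∃ r : ℝ, 0 < r ∧
    ∀ α' β' x' : ℝ, |α' - α| ≤ r → |β' - β| ≤ r → |x' - x| ≤ r →
      (∀ N : ℕ, m < N → N ≤ m + q → FF N α' β' x' ≤ η) ∧
      (∀ n : ℤ, -(m' : ℤ) < n → n ≤ m + q → cs (α' * (x' + n)) ≠ 0) ∧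
      (∀ j : ℕ, 1 ≤ j → j ≤ m + m' + q → ∀ z : ℤ, α' * j ≠ z)

/-- SMB (continuity, 50-80 lines), the mirror image of SMF. `cs (β (x+n)) ≠ 0` for the integers `n`
with `-(m' + Q) ≤ n < m`: otherwise `β (x + n) = l + 1/2`, and `β (x + m) = K + 1/2` gives
`β (m - n) = K - l` with `1 ≤ m - n ≤ m + m' + Q`. The factor `n = m' - 1` of `BB N`,
`m' ≤ N ≤ m' + Q`, is `0`. -/
def S_SMB : Prop :=
  ∀ (α β x : ℝ) (m m' Q : ℕ), SB α β x m m' Q → ∀ η : ℝ, 0 < η → ∃ r : ℝ, 0 < r ∧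
    ∀ α' β' x' : ℝ, |α' - α| ≤ r → |β' - β| ≤ r → |x' - x| ≤ r →
      (∀ N : ℕ, m' ≤ N → N ≤ m' + Q → BB N α' β' x' ≤ η) ∧
      (∀ n : ℤ, -((m' : ℤ) + Q) ≤ n → n < m → cs (β' * (x' + n)) ≠ 0) ∧
      (∀ j : ℕ, 1 ≤ j → j ≤ m + m' + Q → ∀ z : ℤ, β' * j ≠ z)

/-- `e(t) = exp(2πit)` -/
noncomputable def e (t : ℝ) : ℂ := Complex.exp (2 * Real.pi * t * Complex.I)

/-- the functional equation along the orbit `x₀ + ℤ` -/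
def Holds (α β x0 : ℝ) (f : ℝ → ℂ) : Prop :=
  ∀ N : ℤ, f (x0 + N + 1) * (1 + e (α * (x0 + N))) = f (x0 + N) * (1 + e (β * (x0 + N)))

/-- FIN (60-100 lines). PROOF. `‖1 + e t‖ = 2 cs t`. Put `g N = ∏_{n<N} (1+e(β(x+n)))/(1+e(α(x+n)))`
for `N ≥ 0`, `g (-N) = ∏_{n<N} (1+e(α(x-(n+1))))/(1+e(β(x-(n+1))))`, `f y = g ⌊y - x⌋`. Then
`‖f (x+N)‖ = FF N`, `‖f (x-N)‖ = BB N`. -/
def S_FIN : Prop :=
  ∀ α β x : ℝ, (∀ n : ℤ, cs (α * (x + n)) ≠ 0) → (∀ n : ℤ, cs (β * (x + n)) ≠ 0) →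
    Tendsto (fun N => FF N α β x) atTop (𝓝 0) → Tendsto (fun N => BB N α β x) atTop (𝓝 0) →
    ∃ f : ℝ → ℂ, Holds α β x f ∧ (∀ N : ℤ, f (x + N) ≠ 0) ∧
      Tendsto (fun N : ℤ => f (x + N)) cofinite (𝓝 0)

/-- INIT (30-60 lines), from AR. PROOF. Let `x = 1/2`, `m'` a large number, `k` the integer part of
`α₀ (m' - 1/2)`, `α = (k+1/2)/(m' - 1/2)`, `m = 2 m' + 3`, `K` the integer part of `β₀ (m + 1/2)`,
`β = (K+1/2)/(m+1/2)`; `|α - α₀| ≤ 1/(2m'-1)`, `|β - β₀| ≤ 1/(2m+1)`, `k < K`. Apply AR with `a = α`,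
`v = m' - x`, `b = β`, `u = x + m`, `M = m + m'`; `x' = m' - v'`. -/
def S_INIT : Prop :=
  ∀ α₀ β₀ : ℝ, 1 < α₀ → α₀ < 2 → 1 < β₀ → β₀ < 2 → ∀ ε : ℝ, 0 < ε →
    ∃ (α β x : ℝ) (m m' Q : ℕ), |α - α₀| < ε ∧ |β - β₀| < ε ∧ SB α β x m m' Q

/-- STF (20-50 lines), from AR: `a = α`, `v = m' - x`, `b = β`, `u = x + m + q`, `M = m + q + m'`,
`K` replaced by `K + p`; `k < K + p` because `k + 1/2 < 2 m'` and `K + p + 1/2 > m + q ≥ 2m'+3`. -/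
def S_STF : Prop :=
  ∀ (α β x : ℝ) (m m' q : ℕ), SF α β x m m' q → ∀ ε : ℝ, 0 < ε →
    ∃ (α' β' x' : ℝ) (Q : ℕ), |α' - α| < ε ∧ |β' - β| < ε ∧ |x' - x| < ε ∧
      SB α' β' x' (m + q) m' Q

/-- STB (20-50 lines), from AR: `a = β`, `v = x + m`, `b = α`, `u = m' + Q - x`, `M = m + m' + Q`,
the roles of `k`, `K` exchanged. -/
def S_STB : Prop :=
  ∀ (α β x : ℝ) (m m' Q : ℕ), SB α β x m m' Q → ∀ ε : ℝ, 0 < ε →
    ∃ (α' β' x' : ℝ) (q : ℕ), |α' - α| < ε ∧ |β' - β| < ε ∧ |x' - x| < ε ∧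
      SF α' β' x' m (m' + Q) q

/-- NEST (80-120 lines), by the owner: nested boxes. -/
def S_NEST : Prop :=
  ∀ α₀ β₀ : ℝ, 1 < α₀ → α₀ < 2 → 1 < β₀ → β₀ < 2 → ∀ ε : ℝ, 0 < ε →
    ∃ α β x : ℝ, |α - α₀| < ε ∧ |β - β₀| < ε ∧ Irrational α ∧ Irrational β ∧ 0 ≤ x ∧ x ≤ 1 ∧
      (∀ n : ℤ, cs (α * (x + n)) ≠ 0) ∧ (∀ n : ℤ, cs (β * (x + n)) ≠ 0) ∧
      Tendsto (fun N => FF N α β x) atTop (𝓝 0) ∧ Tendsto (fun N => BB N α β x) atTop (𝓝 0)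

end Pool.Agent.Run7.h325.TW
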